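import Pool.Agent.H34.N6.LibC
import Pool.Agent.H34.N6.Main2
import Pool.Agent.H32.SAB.TargetsT

/-!
# Two quadrics in `ℙ⁶`, block P: packaging of the local conditions
-/

set_option autoImplicit false

open Polynomial NumberField IsDedekindDomain Matrix Pool.Agent.H32.QC Pool.Agent.H34.N6

namespace Pool.Agent.H65.N6P

/-- `φ` preserves integrality and `φ p` is small -/
structure Ext {F F2 : Type} [NormedField F] [NormedField F2] (p : F) (φ : F →+* F2) : Prop where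
  int : ∀ x, ‖x‖ ≤ 1 → ‖φ x‖ ≤ 1
  small : ‖φ p‖ < 1

/-- Newton -/
def T_NEW : Prop := ∀ (F : Type) [NormedField F] [IsUltrametricDist F] [CompleteSpace F]
  (G : F[X]) (θ : F) (B : ℝ), 1 ≤ B → (∀ i, ‖G.coeff i‖ ≤ B) → ‖θ‖ ≤ B →
  ‖eval θ G‖ * B ^ (G.natDegree + 1) < ‖eval θ (derivative G)‖ ^ 2 →
  ∃ θ' : F, eval θ' G = 0 ∧ ‖θ - θ'‖ * ‖eval θ (derivative G)‖ ≤ ‖eval θ G‖

/-- nearby roots, uniformly in the extension -/
def T_NEA : Prop := ∀ (F : Type) [NontriviallyNormedField F] [IsUltrametricDist F] (p : F)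
  (G₀ : F[X]), 0 < ‖p‖ → ‖p‖ < 1 → G₀.Monic → G₀.Separable → ∀ m : ℕ, ∃ ε : ℝ, 0 < ε ∧
  ∀ G' : F[X], G'.Monic → G'.natDegree = G₀.natDegree → (∀ i, ‖(G' - G₀).coeff i‖ < ε) →
  ∀ (F2 : Type) [NormedField F2] [IsUltrametricDist F2] [CompleteSpace F2] (φ : F →+* F2),
  Ext p φ → ∀ θ : F2, eval₂ φ θ G' = 0 →
  ∃ θ' : F2, eval₂ φ θ' G₀ = 0 ∧ ‖θ - θ'‖ ≤ ‖φ p‖ ^ m

/-- matrices near a split matrix are split -/
def T_OPM : Prop := ∀ (F : Type) [NormedField F] [IsUltrametricDist F] [CompleteSpace F]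
  (n r : ℕ) (A B E : Matrix (Fin n) (Fin n) F) (α : ℝ), (4 : F) ≠ 0 → A.IsSymm → E.IsSymm →
  A * B = 1 → 1 ≤ α → (∀ i j, ‖B i j‖ ≤ α) → (∀ i j, ‖E i j‖ * α < ‖(4 : F)‖) → TI A r →
  TI (A + E) r

/-- roots and inverse values are bounded by powers of `φ p` -/
def T_BDD : Prop := ∀ (F : Type) [NormedField F] [IsUltrametricDist F] (p : F) (G₀ Q : F[X]),
  0 < ‖p‖ → ‖p‖ < 1 → G₀.Monic → IsCoprime G₀ Q → ∃ s : ℕ,
  ∀ (F2 : Type) [NormedField F2] [IsUltrametricDist F2] (φ : F →+* F2),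
  Ext p φ → ∀ θ : F2, eval₂ φ θ G₀ = 0 → ‖θ‖ * ‖φ p‖ ^ s ≤ 1 ∧
  (∀ i, ‖φ (Q.coeff i)‖ * ‖φ p‖ ^ s ≤ 1) ∧ ‖φ p‖ ^ s ≤ ‖eval₂ φ θ Q‖

/-- the split property near `θ'` -/
def T_OPS : Prop := ∀ (F : Type) [NormedField F] [IsUltrametricDist F] [CharZero F] (p : F)
  (P D G₀ : F[X]), 0 < ‖p‖ → ‖p‖ < 1 → P.Monic → P.natDegree = 7 → IsCoprime P D → G₀.Monic →
  IsCoprime G₀ P → ∃ m : ℕ,
  ∀ (F2 : Type) [NormedField F2] [IsUltrametricDist F2] [CompleteSpace F2] (φ : F →+* F2),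
  Ext p φ → ∀ θ θ' : F2, eval₂ φ θ' G₀ = 0 → ‖θ - θ'‖ ≤ ‖φ p‖ ^ m →
  TI (ft (P.map φ) (D.map φ) θ') 3 → TI (ft (P.map φ) (D.map φ) θ) 3

/-- squares near one -/
def T_SQR : Prop := ∀ (F : Type) [NormedField F] [IsUltrametricDist F] [CompleteSpace F] (x : F),
  ‖x‖ < ‖(4 : F)‖ → ∃ u : F, u ≠ 0 ∧ u ^ 2 = 1 + x

/-- the values of `D` near `θ'` -/
def T_OPY : Prop := ∀ (F : Type) [NormedField F] [IsUltrametricDist F] [CharZero F] (p : F)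
  (D G₀ : F[X]), 0 < ‖p‖ → ‖p‖ < 1 → G₀.Monic → IsCoprime G₀ D → ∃ m : ℕ,
  ∀ (F2 : Type) [NormedField F2] [IsUltrametricDist F2] [CompleteSpace F2] (φ : F →+* F2),
  Ext p φ → ∀ θ θ' : F2, eval₂ φ θ' G₀ = 0 → ‖θ - θ'‖ ≤ ‖φ p‖ ^ m →
  ∃ u : F2, u ≠ 0 ∧ eval₂ φ θ D = u ^ 2 * eval₂ φ θ' D

/-- the choice lemma -/
def T_APX : Prop := ∀ (k : Type) [Field k] [CharZero k] (F : Type) [NontriviallyNormedField F]
  (ι : k →+* F), DenseRange ι → ∀ (P : k[X]) (A : F[X]) (m : ℕ) (ε : ℝ), P ≠ 0 → A.Monic →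
  1 ≤ A.natDegree → 0 < ε → ∃ Aj : Fin m → k[X],
  (∀ j, (Aj j).Monic ∧ (Aj j).natDegree = A.natDegree ∧
    ∀ i, ‖((Aj j).map ι - A).coeff i‖ < ε) ∧
  (∏ j, Aj j).Separable ∧ IsCoprime (∏ j, Aj j) P

/-- polynomials of even degree have nonzero square values -/
def T_DSQ : Prop := ∀ (F : Type) [NontriviallyNormedField F] [IsUltrametricDist F]
  [CompleteSpace F] [CharZero F] (D : F[X]), D.Monic → Even D.natDegree →
  ∃ z : F, eval z D ≠ 0 ∧ IsSquare (eval z D)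

/-- finite places, split property (degrees are multiples of an odd number) -/
def T_LFM : Prop := ∀ (k : Type) [Field k] [NumberField k] (P D : k[X]), P.Monic →
  P.natDegree = 7 → P.Separable → IsCoprime P D → ∀ v : FPl k,
  CZ ((gA P D 0).map (ic v)) ((gA P D 1).map (ic v)) →
  ∃ a : ℕ, Odd a ∧ ∀ m : ℕ, 1 ≤ m → LocOK P (SplitAt P D) (Sum.inl v) (a * m)

/-- finite places, symbols -/
def T_LSF : Prop := ∀ (k : Type) [Field k] [NumberField k] (D : k[X]) (a c : k), a ≠ 0 → c ≠ 0 →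
  D.Monic → D.Separable → Even D.natDegree → ∀ v : FPl k,
  (∃ z : v.adicCompletion k, eval₂ (ic v) z D ≠ 0 ∧ Sol (ic v a) (ic v c * eval₂ (ic v) z D)) ∨
    hs (Sum.inl v) a c = 1 →
  ∀ N : ℕ, Odd N → LocOK D (SymAt a c D) (Sum.inl v) N

/-- real places, symbols (helper70) -/
def T_LSR : Prop := ∀ (k : Type) [Field k] [NumberField k] (D : k[X]) (a c : k), a ≠ 0 → c ≠ 0 →
  D.Monic → D.Separable → Even D.natDegree → ∀ v : k →+* ℝ,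
  (∃ z : ℝ, eval₂ v z D ≠ 0 ∧ Sol (v a) (v c * eval₂ v z D)) ∨ hs (Sum.inr v) a c = 1 →
  ∀ N : ℕ, Odd N → LocOK D (SymAt a c D) (Sum.inr v) N

end Pool.Agent.H65.N6P
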