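import Mathlib
import Pool.Agent.H65.N6P.Targets
import Pool.Agent.H32.QC.TargetsL

/-!
# Block P: finite places, split property
-/

set_option autoImplicit false

open Polynomial NumberField IsDedekindDomain Matrix Pool.Agent.H32.QC Pool.Agent.H34.N6 Pool.Agent.H65.N6P

namespace Pool.Agent.H65.N6P

/-- a continuous ring homomorphism of normed fields maps topologically nilpotent elements to such elements -/
theorem small_of_cont {F₁ F₂ : Type} [NormedField F₁] [NormedField F₂] (φ : F₁ →+* F₂) (hφ : Continuous φ)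
    {y : F₁} (hy : ‖y‖ < 1) : ‖φ y‖ < 1 := by
  by_contra h1
  push Not at h1
  have h2 : Filter.Tendsto (fun n : ℕ => φ (y ^ n)) Filter.atTop (nhds (φ 0)) :=
    (hφ.tendsto 0).comp (tendsto_pow_atTop_nhds_zero_of_norm_lt_one hy)
  rw [map_zero] at h2
  have h3 := h2.norm
  rw [norm_zero] at h3
  have h4 : ∀ n : ℕ, (1 : ℝ) ≤ ‖φ (y ^ n)‖ := by
    intro n
    rw [map_pow, norm_pow]
    exact one_le_pow₀ h1
  have h5 := ge_of_tendsto h3 (Filter.Eventually.of_forall h4)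
  linarith

theorem ext_of_cont {F₁ F₂ : Type} [NormedField F₁] [NormedField F₂] (φ : F₁ →+* F₂) (hφ : Continuous φ)
    {p : F₁} (hp : p ≠ 0) (hp1 : ‖p‖ < 1) : Ext p φ :=
  ⟨fun _ hx => norm_le_of_cont φ hφ hp hp1 hx, small_of_cont φ hφ hp1⟩

theorem natDegree_prod_eq {k : Type} [Field k] {m a : ℕ} {A : Fin m → k[X]} (h : ∀ j, (A j).Monic)
    (hd : ∀ j, (A j).natDegree = a) : (∏ j, A j).natDegree = a * m := by
  rw [Polynomial.natDegree_prod_of_monic _ _ fun j _ => h j]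
  simp [hd, mul_comm]

theorem pf_LFM (hADC : Pool.Agent.H32.QC.T_ADC) (hLL7 : T_LL7) (hNEA : T_NEA) (hOPS : T_OPS) (hAPX : T_APX) :
    T_LFM := by
  intro k _ _ P D hP h7 hsep hPD v hCZ
  obtain ⟨hprop, hchar, x0, hx0⟩ := hADC k v
  letI nn : NontriviallyNormedField (v.adicCompletion k) :=
    { (inferInstance : NormedField (v.adicCompletion k)) with non_trivial := ⟨x0, hx0⟩ }
  obtain ⟨p, hp0, hp1⟩ := exists_small v
  have hp0' : 0 < ‖p‖ := norm_pos_iff.2 hp0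
  set Pv : (v.adicCompletion k)[X] := P.map (ic v) with hPv
  set Dv : (v.adicCompletion k)[X] := D.map (ic v) with hDv
  have hPvm : Pv.Monic := hP.map _
  have hPv7 : Pv.natDegree = 7 := by rw [hPv, hP.natDegree_map, h7]
  have hPDv : IsCoprime Pv Dv := hPD.map (Polynomial.mapRingHom (ic v))
  obtain ⟨A, hAm, hAi, hAo, hA⟩ := hLL7 (v.adicCompletion k) Pv Dv hPvm hPv7 hsep.map hPDv (by
    rw [hPv, hDv, gA_map hP, gA_map hP]; exact hCZ)
  have hAP : IsCoprime A Pv := by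
    rw [hAi.coprime_iff_not_dvd]
    intro hdvd
    haveI : Fact (Irreducible A) := ⟨hAi⟩
    have h1 := (hA (AdjoinRoot A) (AdjoinRoot.of A) (AdjoinRoot.root A) (AdjoinRoot.eval₂_root A)).1
    apply h1
    obtain ⟨Q, hQ⟩ := hdvd
    rw [hQ, eval₂_mul, AdjoinRoot.eval₂_root, zero_mul]
  -- first step: polynomials near `A`
  obtain ⟨m₁, hm₁⟩ := hOPS (v.adicCompletion k) p Pv Dv A hp0' hp1 hPvm hPv7 hPDv hAm hAP
  obtain ⟨ε₁, hε₁, hn₁⟩ := hNEA (v.adicCompletion k) p A hp0' hp1 hAm hAi.separable m₁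
  refine ⟨A.natDegree, hAo, fun m hm => ?_⟩
  obtain ⟨Aj, hAj, hGs, hGP⟩ := hAPX k (v.adicCompletion k) (ic v)
    (HeightOneSpectrum.denseRange_algebraMap k v) P A m ε₁ hP.ne_zero hAm hAo.pos hε₁
  set G : k[X] := ∏ j, Aj j with hG
  have hGm : G.Monic := Polynomial.monic_prod_of_monic _ _ fun j _ => (hAj j).1
  have hGd : G.natDegree = A.natDegree * m := natDegree_prod_eq (fun j => (hAj j).1) fun j => (hAj j).2.1
  set Gv : (v.adicCompletion k)[X] := G.map (ic v) with hGv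
  have hGvm : Gv.Monic := hGm.map _
  have hGvP : IsCoprime Gv Pv := hGP.map (Polynomial.mapRingHom (ic v))
  obtain ⟨m₂, hm₂⟩ := hOPS (v.adicCompletion k) p Pv Dv Gv hp0' hp1 hPvm hPv7 hPDv hGvm hGvP
  obtain ⟨ε₂, hε₂, hn₂⟩ := hNEA (v.adicCompletion k) p Gv hp0' hp1 hGvm hGs.map m₂
  refine ⟨G, ε₂, hε₂, hGm, hGd, hGP, hGs, ?_⟩
  intro G' hG'm hG'd hG'c K _ _ _ w hw θ _ hθ
  cases w with
  | inr ψ => exact absurd hw (by simp [bel])
  | inl w =>
    have hwv : w.under (𝓞 k) = v := Sum.inl.inj hw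
    subst hwv
    obtain ⟨φ, hφc, hφ⟩ := exists_up (k := k) w
    have hE : Ext p φ := ext_of_cont φ hφc hp0 hp1
    have hcomp : φ.comp (ic (w.under (𝓞 k))) = (ic w).comp (algebraMap k K) := RingHom.ext hφ
    have hroot : eval₂ φ (ic w θ) (G'.map (ic (w.under (𝓞 k)))) = 0 := by
      rw [eval₂_map, hcomp, ← Polynomial.hom_eval₂, ← aeval_def, hθ, map_zero]
    have hclose : ∀ i, ‖(G'.map (ic (w.under (𝓞 k))) - Gv).coeff i‖ < ε₂ := by
      intro i
      rw [hGv, ← Polynomial.map_sub, coeff_map]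
      exact hG'c i
    obtain ⟨θ', hθ', hd⟩ := hn₂ (G'.map (ic (w.under (𝓞 k)))) (hG'm.map _) (by
      rw [hG'm.natDegree_map, hG'd, hGv, hGm.natDegree_map, hGd]) hclose (w.adicCompletion K) φ hE (ic w θ) hroot
    -- the root of `G` is split
    have hsplit' : TI (ft (Pv.map φ) (Dv.map φ) θ') 3 := by
      have h1 : eval₂ φ θ' Gv = ∏ j, eval₂ φ θ' ((Aj j).map (ic (w.under (𝓞 k)))) := by
        rw [hGv, hG, Polynomial.map_prod, ← Polynomial.coe_eval₂RingHom, map_prod]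
      rw [h1] at hθ'
      obtain ⟨j, -, hj⟩ := Finset.prod_eq_zero_iff.1 hθ'
      obtain ⟨θ'', hθ'', hd'⟩ := hn₁ _ ((hAj j).1.map _) (by rw [(hAj j).1.natDegree_map, (hAj j).2.1])
        (hAj j).2.2 (w.adicCompletion K) φ hE θ' hj
      exact hm₁ (w.adicCompletion K) φ hE θ' θ'' hθ'' hd' (hA (w.adicCompletion K) φ θ'' hθ'').2
    have hfin := hm₂ (w.adicCompletion K) φ hE (ic w θ) θ' hθ' hd hsplit'
    show TI (ft (P.map ((ic w).comp (algebraMap k K))) (D.map ((ic w).comp (algebraMap k K))) (ic w θ)) 3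
    rw [← hcomp, ← Polynomial.map_map, ← Polynomial.map_map]
    exact hfin

end Pool.Agent.H65.N6P
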