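import Mathlib
import Pool.Agent.H65.N6P.LFM
import Pool.Agent.H64.N6P.NEW
import Pool.Agent.H64.N6P.SQR
import Pool.Agent.H43.N6P.NEA
import Pool.Agent.H43.N6P.OPS
import Pool.Agent.H43.N6P.LSF
import Pool.Agent.H23.N6P.APX
import Pool.Agent.H23.N6P.OPM
import Pool.Agent.H23.N6P.OPY
import Pool.Agent.H18.N6P.DSQ
import Pool.Agent.H16.N6P.BDD
import Pool.Agent.H29.N6B.BDE
import Pool.Agent.H81.SAB.TIC
import Pool.Agent.H23.QCF.LocalAll

/-!
# Block P: assembly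
-/

set_option autoImplicit false

open Pool.Agent.H34.N6 Pool.Agent.H65.N6P

namespace Pool.Agent.H65.N6P

theorem p_NEW : T_NEW := Pool.Agent.H64.N6P.pf_NEW

theorem p_SQR : T_SQR := Pool.Agent.H64.N6P.pf_SQR p_NEW

theorem p_BDD : T_BDD := Pool.Agent.H16.N6P.pf_BDD

theorem p_NEA : T_NEA := Pool.Agent.H43.N6P.pf_NEA p_NEW p_BDD

theorem p_OPM : T_OPM := Pool.Agent.H23.N6P.pf_OPM Pool.Agent.H81.SAB.pf_TIC

theorem p_OPS : T_OPS := Pool.Agent.H43.N6P.pf_OPS p_OPM p_BDD Pool.Agent.H29.N6B.pf_BDE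

theorem p_OPY : T_OPY := Pool.Agent.H23.N6P.pf_OPY p_SQR p_BDD

theorem p_APX : T_APX := Pool.Agent.H23.N6P.pf_APX

theorem p_DSQ : T_DSQ := Pool.Agent.H18.N6P.pf_DSQ p_SQR

/-- finite places, split property, from the local lemma -/
theorem p_LFM (hLL7 : T_LL7) : T_LFM := pf_LFM Pool.Agent.H23.QCF.LA.adc hLL7 p_NEA p_OPS p_APX

/-- finite places, symbols -/
theorem p_LSF : T_LSF := Pool.Agent.H43.N6P.pf_LSF Pool.Agent.H23.QCF.LA.adc p_NEA p_OPY p_APX p_DSQ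

end Pool.Agent.H65.N6P
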